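import Pool.Agent.LibWSF.Classify

set_option autoImplicit false
set_option linter.unusedVariables false

open Finset

namespace Pool.Agent.Results.MP_043c16_co.WeakSumFreeThresholds

/-- The restricted sumset: all sums of `h` pairwise distinct elements of `A`. -/
def restrictedSumset {G : Type} [AddCommGroup G] (h : ℕ) (A : Finset G) : Set G :=
  {x | ∃ S : Finset G, S ⊆ A ∧ S.card = h ∧ ∑ y ∈ S, y = x}

/-- `A` is weakly `(k, l)`-sum-free. -/
def WeaklySumFree {G : Type} [AddCommGroup G] (k l : ℕ) (A : Finset G) : Prop :=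
  restrictedSumset k A ∩ restrictedSumset l A = ∅

/-- The largest size of a weakly `(k, l)`-sum-free subset of the cyclic group of order `n`. -/
noncomputable def muHat (n k l : ℕ) : ℕ :=
  sSup {s : ℕ | ∃ A : Finset (ZMod n), A.card = s ∧ WeaklySumFree k l A}

/-- The least `n ≥ 1` such that the cyclic group of order `n` has a weakly `(k, l)`-sum-free
subset of size at least `m`. -/
noncomputable def f (m k l : ℕ) : ℕ := sInf {n : ℕ | 1 ≤ n ∧ m ≤ muHat n k l}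

/-- The least `N` such that for all `n ≥ N` (with `n ≥ 1`) the cyclic group of order `n` has a
weakly `(k, l)`-sum-free subset of size at least `m`. -/
noncomputable def g (m k l : ℕ) : ℕ := sInf {N : ℕ | ∀ n : ℕ, N ≤ n → 1 ≤ n → m ≤ muHat n k l}

/-- The divisor condition, used for `n ≤ 3 m - 4`: there is a divisor `d` of `n`, with `n = d h`,
such that `r = (d + 1) h / 3 - m` is a nonnegative integer, and
* `d = 2` and `m` is even, or
* `d ≥ 5` is a prime congruent to `2` modulo `3`, and not both `d ∣ m - 3` and `r ∈ {1, 3}`, or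
* `d = 8`, `m` is odd, and not both `m ≡ 3` modulo `8` and `r ∈ {0, 1}`, or
* `d = 2 p` with `p ≡ 1` modulo `3` prime, `m` is odd, `r ≥ 1`, and if `p ∣ m - 3` then
  `r ≠ 1` for `p ≠ 7` and `r ≠ 2` for `p = 7`. -/
def DivisorCondition (m n : ℕ) : Prop :=
  ∃ d h r : ℕ, n = d * h ∧ 3 * (m + r) = (d + 1) * h ∧
    ((d = 2 ∧ m % 2 = 0) ∨
     (d.Prime ∧ 5 ≤ d ∧ d % 3 = 2 ∧ ¬ (d ∣ m - 3 ∧ (r = 1 ∨ r = 3))) ∨
     (d = 8 ∧ m % 2 = 1 ∧ ¬ (m % 8 = 3 ∧ (r = 0 ∨ r = 1))) ∨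
     (m % 2 = 1 ∧ 1 ≤ r ∧ ∃ p : ℕ, p.Prime ∧ p % 3 = 1 ∧ d = 2 * p ∧
       (p ∣ m - 3 → (p ≠ 7 → r ≠ 1) ∧ (p = 7 → r ≠ 2))))

/-- The explicit arithmetic criterion: `n ≥ 3 m - 1`; or `n = 3 m - 2` outside the case
`m` odd, `7 ∣ m - 3`, `49 ∤ n`, all primes dividing `n` congruent to `1` modulo `3`; or
`n = 3 m - 3` outside the case `m ≡ 3` modulo `4` with `(m - 1) / 2` a power of `3` or a prime
congruent to `1` modulo `3`; or `n ≤ 3 m - 4` and the divisor condition holds. -/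
def Criterion (m n : ℕ) : Prop :=
  3 * m - 1 ≤ n ∨
  (n = 3 * m - 2 ∧
    ¬ (m % 2 = 1 ∧ 7 ∣ m - 3 ∧ ¬ 49 ∣ n ∧ ∀ p : ℕ, p.Prime → p ∣ n → p % 3 = 1)) ∨
  (n = 3 * m - 3 ∧
    ¬ (m % 4 = 3 ∧ ((∃ j : ℕ, (m - 1) / 2 = 3 ^ j) ∨
      (((m - 1) / 2).Prime ∧ ((m - 1) / 2) % 3 = 1)))) ∨
  (n ≤ 3 * m - 4 ∧ DivisorCondition m n)

/-- The value of `f (k + 2, {k, 1})`. -/
def fValue (k : ℕ) : ℕ :=
  if k % 2 = 0 then 2 * k + 4
  else if k = 3 then 12
  else if k = 5 then 19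
  else if k = 7 then 24
  else if k = 11 then 36
  else if k = 21 then 64
  else if k = 31 then 88
  else if k = 51 then 144
  else if k = 61 then 168
  else if k % 10 = 1 then 5 * (k + 7) / 2
  else 5 * (k + 3) / 2

open Pool.Agent.LibWSF

lemma divisor_iff {m n : ℕ} (hm : 4 ≤ m) : DivisorCondition m n ↔ Crit m n := by
  constructor
  · rintro ⟨d, h, r, hn, hmr, hc⟩
    rcases hc with ⟨rfl, h2⟩ | ⟨hd, hd5, hd3, hex⟩ | ⟨rfl, h2, hex⟩ | ⟨h2, hr, p, hp, hp3, rfl, hex⟩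
    · exact Or.inl ⟨h2, h, hn, by omega⟩
    · exact Or.inr (Or.inl ⟨d, h, r, hd, hd3, hd5, hn, hmr, hex⟩)
    · exact Or.inr (Or.inr (Or.inl ⟨h2, h, r, hn, by omega, hex⟩))
    · refine Or.inr (Or.inr (Or.inr ⟨h2, p, h, r, hp, hp3, hn, hmr, hr, ?_⟩))
      rintro ⟨hpm, ⟨h1, h7⟩ | ⟨h1, h7⟩⟩
      · exact (hex hpm).1 h7 h1
      · exact (hex hpm).2 h7 h1
  · rintro (⟨h2, h, hn, hmh⟩ | ⟨p, h, r, hp, hp3, hp5, hn, hmr, hex⟩ | ⟨h2, h, r, hn, hmr, hex⟩ |
      ⟨h2, p, h, r, hp, hp3, hn, hmr, hr, hex⟩)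
    · exact ⟨2, h, h - m, hn, by omega, Or.inl ⟨rfl, h2⟩⟩
    · exact ⟨p, h, r, hn, hmr, Or.inr (Or.inl ⟨hp, hp5, hp3, hex⟩)⟩
    · exact ⟨8, h, r, hn, by omega, Or.inr (Or.inr (Or.inl ⟨rfl, h2, hex⟩))⟩
    · refine ⟨2 * p, h, r, hn, hmr, Or.inr (Or.inr (Or.inr ⟨h2, hr, p, hp, hp3, rfl, ?_⟩))⟩
      intro hpm
      exact ⟨fun h7 h1 => hex ⟨hpm, Or.inl ⟨h1, h7⟩⟩, fun h7 h1 => hex ⟨hpm, Or.inr ⟨h1, h7⟩⟩⟩

lemma criterion_iff {m n : ℕ} (hm : 4 ≤ m) : Criterion m n ↔ GoodN m n := by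
  have hbad2 : n = 3 * m - 2 → ((m % 2 = 1 ∧ 7 ∣ m - 3 ∧ ¬ 49 ∣ n ∧
      ∀ p : ℕ, p.Prime → p ∣ n → p % 3 = 1) ↔ Bad2 m) := by
    rintro rfl; rfl
  have hbad3 : (m % 4 = 3 ∧ ((∃ j : ℕ, (m - 1) / 2 = 3 ^ j) ∨
      (((m - 1) / 2).Prime ∧ ((m - 1) / 2) % 3 = 1))) ↔ Bad3 m := by
    constructor
    · rintro ⟨h1, h2⟩
      exact ⟨h1, (m - 1) / 2, by omega, h2⟩
    · rintro ⟨h1, s, hs, h2⟩
      have : (m - 1) / 2 = s := by omega
      rw [this]
      exact ⟨h1, h2⟩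
  unfold Criterion GoodN
  constructor
  · rintro (h | ⟨h, hb⟩ | ⟨h, hb⟩ | ⟨h, hc⟩)
    · exact Or.inl (by omega)
    · exact Or.inr (Or.inl ⟨by omega, fun hh => hb ((hbad2 h).2 hh)⟩)
    · exact Or.inr (Or.inr (Or.inl ⟨by omega, fun hh => hb (hbad3.2 hh)⟩))
    · exact Or.inr (Or.inr (Or.inr ⟨by omega, (divisor_iff hm).1 hc⟩))
  · rintro (h | ⟨h, hb⟩ | ⟨h, hb⟩ | ⟨h, hc⟩)
    · exact Or.inl (by omega)
    · have h' : n = 3 * m - 2 := by omega
      exact Or.inr (Or.inl ⟨h', fun hh => hb ((hbad2 h').1 hh)⟩)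
    · exact Or.inr (Or.inr (Or.inl ⟨by omega, fun hh => hb (hbad3.1 hh)⟩))
    · exact Or.inr (Or.inr (Or.inr ⟨by omega, (divisor_iff hm).2 hc⟩))

section bridge

variable {G : Type} [AddCommGroup G]

lemma mem_one {A : Finset G} {x : G} : x ∈ restrictedSumset 1 A ↔ x ∈ A := by
  constructor
  · rintro ⟨S, hS, hc, hs⟩
    obtain ⟨y, rfl⟩ := Finset.card_eq_one.1 hc
    rw [Finset.sum_singleton] at hs
    subst hs
    exact hS (Finset.mem_singleton_self _)
  · intro hx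
    exact ⟨{x}, Finset.singleton_subset_iff.2 hx, Finset.card_singleton x, Finset.sum_singleton _ _⟩

lemma wsf_iff {k : ℕ} {A : Finset G} (hA : A.card = k + 2) :
    WeaklySumFree k 1 A ↔ TotalOK A := by
  classical
  constructor
  · intro h
    have key : ∀ x ∈ A, ∀ y ∈ A, ∀ z ∈ A, x ≠ y → x + y + z ≠ ∑ w ∈ A, w := by
      intro x hx y hy z hz hxy hsum
      have hsub : ({x, y} : Finset G) ⊆ A := by
        intro w hw
        rw [Finset.mem_insert, Finset.mem_singleton] at hw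
        rcases hw with rfl | rfl
        · exact hx
        · exact hy
      have h1 : z ∈ restrictedSumset k A := by
        refine ⟨A \ {x, y}, Finset.sdiff_subset, ?_, ?_⟩
        · rw [Finset.card_sdiff_of_subset hsub, hA, Finset.card_pair hxy]; omega
        · have h2 := Finset.sum_sdiff hsub (f := fun w => w)
          rw [Finset.sum_pair hxy, ← hsum] at h2
          have h3 : ∑ w ∈ A \ {x, y}, w + (x + y) = z + (x + y) := by rw [h2]; abel
          exact add_right_cancel h3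
      have h2 : z ∈ restrictedSumset k A ∩ restrictedSumset 1 A := ⟨h1, mem_one.2 hz⟩
      rw [h] at h2
      exact h2
    intro a ha b hb c hc habc
    constructor
    · by_contra hab
      exact key a ha b hb c hc hab habc
    · by_contra hbc
      exact key b hb c hc a ha hbc (by rw [← habc]; abel)
  · intro h
    unfold WeaklySumFree
    rw [Set.eq_empty_iff_forall_notMem]
    rintro z ⟨⟨S, hS, hc, hs⟩, hz⟩
    rw [mem_one] at hz
    have hcard : (A \ S).card = 2 := by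
      rw [Finset.card_sdiff_of_subset hS, hA, hc]; omega
    obtain ⟨x, y, hxy, hxyS⟩ := Finset.card_eq_two.1 hcard
    have hx : x ∈ A := (Finset.mem_sdiff.1 (show x ∈ A \ S by rw [hxyS]; simp)).1
    have hy : y ∈ A := (Finset.mem_sdiff.1 (show y ∈ A \ S by rw [hxyS]; simp)).1
    have h2 := Finset.sum_sdiff hS (f := fun w => w)
    rw [hxyS, Finset.sum_pair hxy, hs] at h2
    exact hxy (h x hx y hy z hz h2).1

lemma restricted_mono {h : ℕ} {A B : Finset G} (hAB : A ⊆ B) :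
    restrictedSumset h A ⊆ restrictedSumset h B := by
  rintro x ⟨S, hS, hc, hs⟩
  exact ⟨S, hS.trans hAB, hc, hs⟩

lemma wsf_mono {k l : ℕ} {A B : Finset G} (hAB : A ⊆ B) (h : WeaklySumFree k l B) :
    WeaklySumFree k l A := by
  unfold WeaklySumFree at *
  rw [Set.eq_empty_iff_forall_notMem] at *
  intro x hx
  exact h x ⟨restricted_mono hAB hx.1, restricted_mono hAB hx.2⟩

end bridge

lemma le_muHat_iff {n k l m : ℕ} (hn : 1 ≤ n) (hk : 1 ≤ k) :
    m ≤ muHat n k l ↔ ∃ A : Finset (ZMod n), A.card = m ∧ WeaklySumFree k l A := by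
  have hN : NeZero n := ⟨by omega⟩
  have hbdd : BddAbove {s : ℕ | ∃ A : Finset (ZMod n), A.card = s ∧ WeaklySumFree k l A} := by
    refine ⟨n, ?_⟩
    rintro s ⟨A, rfl, _⟩
    have := Finset.card_le_univ A
    rwa [ZMod.card] at this
  have hne : {s : ℕ | ∃ A : Finset (ZMod n), A.card = s ∧ WeaklySumFree k l A}.Nonempty := by
    refine ⟨0, ∅, Finset.card_empty, ?_⟩
    unfold WeaklySumFree
    rw [Set.eq_empty_iff_forall_notMem]
    rintro x ⟨⟨S, hS, hc, hs⟩, _⟩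
    rw [Finset.subset_empty] at hS
    rw [hS, Finset.card_empty] at hc
    omega
  constructor
  · intro h
    obtain ⟨A, hA, hW⟩ := Nat.sSup_mem hne hbdd
    have hmA : m ≤ A.card := by rw [hA]; exact h
    obtain ⟨B, hB, hBc⟩ := Finset.exists_subset_card_eq hmA
    exact ⟨B, hBc, wsf_mono hB hW⟩
  · rintro ⟨A, hA, hW⟩
    exact le_csSup hbdd ⟨A, hA, hW⟩

lemma muHat_iff {n k : ℕ} (hn : 1 ≤ n) (hk : 2 ≤ k) :
    k + 2 ≤ muHat n k 1 ↔ Criterion (k + 2) n := by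
  rw [le_muHat_iff hn (by omega), criterion_iff (by omega), ← classify (by omega) (by omega)]
  constructor
  · rintro ⟨A, hA, hW⟩
    exact ⟨A, hA, (wsf_iff hA).1 hW⟩
  · rintro ⟨A, hA, hW⟩
    exact ⟨A, hA, (wsf_iff hA).2 hW⟩

/-- lower bounds from the divisor condition -/
lemma crit_lower {m n : ℕ} (hm : 4 ≤ m) (h : Crit m n) :
    (m % 2 = 0 ∧ 2 * m ≤ n) ∨
    (∃ h r, n = 5 * h ∧ m + r = 2 * h ∧ ¬ (5 ∣ m - 3 ∧ (r = 1 ∨ r = 3))) ∨
    (∃ h, n = 11 * h ∧ m ≤ 4 * h) ∨ 17 * m ≤ 6 * n ∨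
    (m % 2 = 1 ∧ ∃ h, n = 8 * h ∧ m ≤ 3 * h) ∨ (m % 2 = 1 ∧ 14 * (m + 1) ≤ 5 * n) := by
  rcases h with ⟨h2, h, hn, hmh⟩ | ⟨p, h, r, hp, hp3, hp5, hn, hmr, hex⟩ | ⟨h2, h, r, hn, hmr, hex⟩ |
      ⟨h2, p, h, r, hp, hp3, hn, hmr, hr, hex⟩
  · exact Or.inl ⟨h2, by omega⟩
  · by_cases h5 : p = 5
    · subst h5
      exact Or.inr (Or.inl ⟨h, r, hn, by omega, hex⟩)
    · by_cases h11 : p = 11
      · subst h11
        exact Or.inr (Or.inr (Or.inl ⟨h, hn, by omega⟩))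
      · have hp17 : 17 ≤ p := by
          by_contra hlt
          have : p = 8 ∨ p = 14 := by omega
          rcases this with rfl | rfl
          · revert hp; decide
          · revert hp; decide
        refine Or.inr (Or.inr (Or.inr (Or.inl ?_)))
        -- 18 p h ≥ 17 (p + 1) h = 51 (m + r)
        have h1 : 17 * ((p + 1) * h) ≤ 18 * (p * h) := by nlinarith
        rw [← hmr, ← hn] at h1
        omega
  · exact Or.inr (Or.inr (Or.inr (Or.inr (Or.inl ⟨h2, h, hn, by omega⟩))))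
  · refine Or.inr (Or.inr (Or.inr (Or.inr (Or.inr ⟨h2, ?_⟩))))
    have hp7 : 7 ≤ p := by
      have := hp.two_le
      by_contra hlt
      have : p = 4 := by omega
      subst this
      revert hp; decide
    have h1 : 14 * ((2 * p + 1) * h) ≤ 15 * (2 * p * h) := by nlinarith
    rw [← hmr, ← hn] at h1
    omega

set_option maxHeartbeats 1000000 in
lemma fValue_good {k : ℕ} (hk : 2 ≤ k) : GoodN (k + 2) (fValue k) := by
  unfold fValue
  by_cases h0 : k % 2 = 0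
  · rw [if_pos h0]
    exact Or.inr (Or.inr (Or.inr ⟨by omega, Or.inl ⟨by omega, k + 2, by ring, le_rfl⟩⟩))
  rw [if_neg h0]
  by_cases h3 : k = 3
  · subst h3
    exact Or.inr (Or.inr (Or.inl ⟨by norm_num, fun h => absurd h.1 (by norm_num)⟩))
  rw [if_neg h3]
  by_cases h5 : k = 5
  · subst h5
    exact Or.inr (Or.inl ⟨by norm_num, fun h => absurd h.2.1 (by norm_num)⟩)
  rw [if_neg h5]
  by_cases h7 : k = 7
  · subst h7
    exact Or.inr (Or.inr (Or.inl ⟨by norm_num, fun h => absurd h.1 (by norm_num)⟩))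
  rw [if_neg h7]
  by_cases h11 : k = 11
  · subst h11
    exact Or.inr (Or.inr (Or.inl ⟨by norm_num, fun h => absurd h.1 (by norm_num)⟩))
  rw [if_neg h11]
  by_cases h21 : k = 21
  · subst h21
    exact Or.inr (Or.inr (Or.inr ⟨by norm_num, Or.inr (Or.inr (Or.inl ⟨by norm_num, 8, 1,
      by norm_num, by norm_num, by norm_num⟩))⟩))
  rw [if_neg h21]
  by_cases h31 : k = 31
  · subst h31
    exact Or.inr (Or.inr (Or.inr ⟨by norm_num, Or.inr (Or.inr (Or.inl ⟨by norm_num, 11, 0,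
      by norm_num, by norm_num, by norm_num⟩))⟩))
  rw [if_neg h31]
  by_cases h51 : k = 51
  · subst h51
    exact Or.inr (Or.inr (Or.inr ⟨by norm_num, Or.inr (Or.inr (Or.inl ⟨by norm_num, 18, 1,
      by norm_num, by norm_num, by norm_num⟩))⟩))
  rw [if_neg h51]
  by_cases h61 : k = 61
  · subst h61
    exact Or.inr (Or.inr (Or.inr ⟨by norm_num, Or.inr (Or.inr (Or.inl ⟨by norm_num, 21, 0,
      by norm_num, by norm_num, by norm_num⟩))⟩))
  rw [if_neg h61]
  by_cases h10 : k % 10 = 1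
  · rw [if_pos h10]
    refine Or.inr (Or.inr (Or.inr ⟨by omega, Or.inr (Or.inl ⟨5, (k + 7) / 2, 5, by norm_num,
      by norm_num, by norm_num, by omega, by omega, by omega⟩)⟩))
  · rw [if_neg h10]
    by_cases h9 : k = 9
    · subst h9
      refine Or.inr (Or.inr (Or.inl ⟨by norm_num, ?_⟩))
      rintro ⟨_, s, hs, hs'⟩
      have hs5 : s = 5 := by omega
      subst hs5
      rcases hs' with ⟨j, hj⟩ | ⟨_, hj⟩
      · rcases j with _ | _ | j
        · norm_num at hj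
        · norm_num at hj
        · have h1 : 1 ≤ 3 ^ j := Nat.one_le_pow _ _ (by norm_num)
          rw [pow_succ, pow_succ] at hj
          omega
      · norm_num at hj
    · refine Or.inr (Or.inr (Or.inr ⟨by omega, Or.inr (Or.inl ⟨5, (k + 3) / 2, 1, by norm_num,
        by norm_num, by norm_num, by omega, by omega, by omega⟩)⟩))

lemma fValue_cases {k : ℕ} (hk : 2 ≤ k) :
    (k % 2 = 0 ∧ fValue k = 2 * k + 4) ∨ (k = 3 ∧ fValue k = 12) ∨ (k = 5 ∧ fValue k = 19) ∨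
    (k = 7 ∧ fValue k = 24) ∨ (k = 11 ∧ fValue k = 36) ∨ (k = 21 ∧ fValue k = 64) ∨
    (k = 31 ∧ fValue k = 88) ∨ (k = 51 ∧ fValue k = 144) ∨ (k = 61 ∧ fValue k = 168) ∨
    (k % 10 = 1 ∧ k ≠ 51 ∧ k ≠ 61 ∧ 41 ≤ k ∧ 2 * fValue k = 5 * (k + 7)) ∨
    (k % 2 = 1 ∧ k % 10 ≠ 1 ∧ 9 ≤ k ∧ 2 * fValue k = 5 * (k + 3)) := by
  unfold fValue
  by_cases h0 : k % 2 = 0
  · rw [if_pos h0]; exact Or.inl ⟨h0, rfl⟩
  rw [if_neg h0]
  right
  by_cases h3 : k = 3
  · rw [if_pos h3]; exact Or.inl ⟨h3, rfl⟩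
  rw [if_neg h3]
  right
  by_cases h5 : k = 5
  · rw [if_pos h5]; exact Or.inl ⟨h5, rfl⟩
  rw [if_neg h5]
  right
  by_cases h7 : k = 7
  · rw [if_pos h7]; exact Or.inl ⟨h7, rfl⟩
  rw [if_neg h7]
  right
  by_cases h11 : k = 11
  · rw [if_pos h11]; exact Or.inl ⟨h11, rfl⟩
  rw [if_neg h11]
  right
  by_cases h21 : k = 21
  · rw [if_pos h21]; exact Or.inl ⟨h21, rfl⟩
  rw [if_neg h21]
  right
  by_cases h31 : k = 31
  · rw [if_pos h31]; exact Or.inl ⟨h31, rfl⟩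
  rw [if_neg h31]
  right
  by_cases h51 : k = 51
  · rw [if_pos h51]; exact Or.inl ⟨h51, rfl⟩
  rw [if_neg h51]
  right
  by_cases h61 : k = 61
  · rw [if_pos h61]; exact Or.inl ⟨h61, rfl⟩
  rw [if_neg h61]
  right
  by_cases h10 : k % 10 = 1
  · rw [if_pos h10]
    refine Or.inl ⟨h10, h51, h61, by omega, by omega⟩
  · rw [if_neg h10]
    refine Or.inr ⟨by omega, h10, by omega, by omega⟩

lemma fValue_lower {k n : ℕ} (hk : 2 ≤ k) (hn : n < fValue k) : ¬ GoodN (k + 2) n := by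
  have hF := fValue_cases hk
  generalize fValue k = F at hn hF
  rintro (h | ⟨h, hb⟩ | ⟨h, hb⟩ | ⟨h, hc⟩)
  · omega
  · omega
  · have hk5 : k = 5 := by omega
    subst hk5
    apply hb
    exact ⟨by norm_num, 3, by norm_num, Or.inl ⟨1, by norm_num⟩⟩
  · have h := crit_lower (by omega) hc
    rcases h with ⟨h1, h2⟩ | ⟨h, r, h1, h2, h3⟩ | ⟨h, h1, h2⟩ | h1 | ⟨h1, h, h2, h3⟩ | ⟨h1, h2⟩
    · omega
    · omega
    · omega
    · omega
    · omega
    · omega

lemma one_lt_fValue {k : ℕ} (hk : 2 ≤ k) : 1 < fValue k := by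
  have hF := fValue_cases hk
  omega

/-- **Thresholds for weak `(k, 1)`-sum-freeness.** For every `k ≥ 2`:
the cyclic group of order `n` has a weakly `(k, 1)`-sum-free set of size `k + 2` exactly when the
explicit arithmetic criterion holds; `f (k + 2, {k, 1})` is the explicit value above; and
`g (k + 2, {k, 1})` is one more than the largest `n` violating the criterion. -/
theorem result : ∀ k : ℕ, 2 ≤ k →
    (∀ n : ℕ, 1 ≤ n → (k + 2 ≤ muHat n k 1 ↔ Criterion (k + 2) n)) ∧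
    f (k + 2) k 1 = fValue k ∧
    ∃ N : ℕ, IsGreatest {n : ℕ | ¬ Criterion (k + 2) n} N ∧ g (k + 2) k 1 = N + 1 := by
  intro k hk
  have hF1 : 1 ≤ fValue k := (one_lt_fValue hk).le
  refine ⟨fun n hn => muHat_iff hn hk, ?_, ?_⟩
  · have hleast : IsLeast {n : ℕ | 1 ≤ n ∧ k + 2 ≤ muHat n k 1} (fValue k) := by
      refine ⟨⟨hF1, ?_⟩, ?_⟩
      · rw [muHat_iff hF1 hk, criterion_iff (by omega)]
        exact fValue_good hk
      · rintro n ⟨hn1, hn⟩
        by_contra hlt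
        rw [muHat_iff hn1 hk, criterion_iff (by omega)] at hn
        exact fValue_lower hk (by omega) hn
    exact hleast.csInf_eq
  · have hne : {n : ℕ | ¬ Criterion (k + 2) n}.Nonempty := by
      refine ⟨1, ?_⟩
      intro h
      rw [criterion_iff (by omega)] at h
      exact fValue_lower hk (one_lt_fValue hk) h
    have hbdd : BddAbove {n : ℕ | ¬ Criterion (k + 2) n} := by
      refine ⟨3 * (k + 2), ?_⟩
      intro n hn
      by_contra hlt
      apply hn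
      left
      omega
    have hmem := Nat.sSup_mem hne hbdd
    set N := sSup {n : ℕ | ¬ Criterion (k + 2) n} with hN
    have hup : ∀ n, ¬ Criterion (k + 2) n → n ≤ N := fun n hn => le_csSup hbdd hn
    have hN1 : 1 ≤ N := by
      apply hup 1
      intro h
      rw [criterion_iff (by omega)] at h
      exact fValue_lower hk (one_lt_fValue hk) h
    refine ⟨N, ⟨hmem, fun n hn => hup n hn⟩, ?_⟩
    have hleast : IsLeast {N' : ℕ | ∀ n : ℕ, N' ≤ n → 1 ≤ n → k + 2 ≤ muHat n k 1} (N + 1) := by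
      constructor
      · intro n hn hn1
        rw [muHat_iff hn1 hk]
        by_contra hc
        have := hup n hc
        omega
      · intro N' hN'
        by_contra hlt
        have h1 := hN' N (by omega) hN1
        rw [muHat_iff hN1 hk] at h1
        exact hmem h1
    exact hleast.csInf_eq

end Pool.Agent.Results.MP_043c16_co.WeakSumFreeThresholds
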